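import Pool.Agent.W581.HQ.Stm

/-!
# HQ-SUPA: the tangent line of the profile gives a supporting function
-/

set_option maxHeartbeats 400000

namespace Pool.Agent.W975.HQ.SupA

open Set
open Pool.Agent.W581.HQ
open Pool.Agent.W360.MQ (RC)

theorem tangent (φ : ℝ → ℝ) (hφ : Differentiable ℝ φ) (hc : ConvexOn ℝ univ φ) (t u : ℝ) :
    (φ t - t * deriv φ t) + deriv φ t * u ≤ φ u := by
  have hd : HasDerivAt φ (deriv φ t) t := (hφ t).hasDerivAt
  rcases lt_trichotomy t u with h | h | h
  · have h1 := hc.le_slope_of_hasDerivAt (mem_univ t) (mem_univ u) h hd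
    rw [slope_def_field, le_div_iff₀ (by linarith)] at h1
    linarith
  · rw [← h]
    linarith
  · have h1 := hc.slope_le_of_hasDerivAt (mem_univ u) (mem_univ t) h hd
    rw [slope_def_field, div_le_iff₀ (by linarith)] at h1
    linarith

theorem main (h : S_HOM) : S_SUPA := by
  intro p φ hφ t _ hle
  have hp := hφ.p1
  have hp0 : p ≠ 0 := by linarith
  obtain ⟨A, hA⟩ : ∃ A, A = φ t - t * deriv φ t := ⟨_, rfl⟩
  obtain ⟨B, hB⟩ : ∃ B, B = deriv φ t := ⟨_, rfl⟩
  have htan : ∀ u, A + B * u ≤ φ u := by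
    intro u
    rw [hA, hB]
    exact tangent φ (hφ.sm.differentiable (by norm_num)) hφ.cv t u
  have hRC : RC (fun s => A * s ^ p) (fun s => B * s ^ (p - 2)) := by
    refine h p A B hp ?_
    rw [hA, hB]
    exact hle
  have key : ∀ x y : ℝ, 0 < x + y → A * (x + y) ^ p + B * (x + y) ^ (p - 2) * (x ^ 2 - y ^ 2) =
      (x + y) ^ p * (A + B * ((x - y) / (x + y))) := by
    intro x y hs
    rw [Real.rpow_sub hs]
    have e : (x + y) ^ (2 : ℝ) = (x + y) ^ 2 := by
      exact_mod_cast Real.rpow_natCast (x + y) 2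
    rw [e]
    have hs' : x + y ≠ 0 := hs.ne'
    field_simp
    ring
  have hineq : ∀ x y : ℝ, 0 ≤ x → 0 ≤ y →
      A * (x + y) ^ p + B * (x + y) ^ (p - 2) * (x ^ 2 - y ^ 2) ≤ wp p φ x y := by
    intro x y hx hy
    unfold wp
    rcases (add_nonneg hx hy).eq_or_lt with hs | hs
    · have hx0 : x = 0 := by linarith
      have hy0 : y = 0 := by linarith
      subst hx0
      subst hy0
      simp [Real.zero_rpow hp0]
    · rw [key x y hs]
      exact mul_le_mul_of_nonneg_left (htan _) (Real.rpow_nonneg hs.le p)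
  refine ⟨⟨_, _, hRC, hineq, ?_⟩, fun s hs => ⟨_, _, hRC, hineq, ?_⟩⟩
  · unfold wp
    simp [Real.zero_rpow hp0]
  · have e1 : s * (1 + t) / 2 + s * (1 - t) / 2 = s := by ring
    have e2 : (s * (1 + t) / 2 - s * (1 - t) / 2) / s = t := by
      field_simp
      ring
    have h1 := key (s * (1 + t) / 2) (s * (1 - t) / 2) (by rw [e1]; exact hs)
    unfold wp
    rw [e1, e2] at h1 ⊢
    have h2 : A + B * t = φ t := by
      rw [hA, hB]
      ring
    rw [h2] at h1
    exact h1

end Pool.Agent.W975.HQ.SupA
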